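import Pool.Agent.Q288.DP.All
import Pool.Agent.Q288.DP.Mp
import Pool.Agent.Q288.DP.Dual
import Pool.Agent.Q288.DP.V5
import Pool.Agent.Q288.DP.Cube

set_option autoImplicit false

namespace Pool.Agent.Results.MP_04ae38_an.DirectedPoincare

open MeasureTheory Set

/-- The unit cube `[0,1]^n`. -/
def cube (n : ℕ) : Set (Fin n → ℝ) := Icc 0 1

/-- The `i`-th partial derivative of `f` at `x`. -/
noncomputable def partialD {n : ℕ} (f : (Fin n → ℝ) → ℝ) (i : Fin n) (x : Fin n → ℝ) : ℝ :=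
  deriv (fun t : ℝ => f (Function.update x i t)) (x i)

/-- Euclidean norm of the directed gradient, whose coordinates are `min (∂ᵢ f) 0`. -/
noncomputable def dirGradNorm {n : ℕ} (f : (Fin n → ℝ) → ℝ) (x : Fin n → ℝ) : ℝ :=
  Real.sqrt (∑ i, (min (partialD f i x) 0) ^ 2)

/-- The `L¹` distance of `f` to the (Borel) functions that are monotone on the cube. -/
noncomputable def dMono {n : ℕ} (f : (Fin n → ℝ) → ℝ) : ℝ :=
  sInf {r : ℝ | ∃ g : (Fin n → ℝ) → ℝ, MonotoneOn g (cube n) ∧ Measurable g ∧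
    r = ∫ x in cube n, |f x - g x|}

/-- The directed `L¹` Poincare inequality with the Euclidean norm of the directed gradient:
there is an absolute constant `c > 0` such that `d₁ᵐᵒⁿᵒ(f) ≤ c E ‖∇⁻ f‖₂` for all `n ≥ 1` and
all Lipschitz functions `f` on `[0,1]^n`. -/
theorem result : ∃ c : ℝ, 0 < c ∧ ∀ n : ℕ, 1 ≤ n → ∀ f : (Fin n → ℝ) → ℝ,
    (∃ K : NNReal, LipschitzOnWith K f (cube n)) →
      dMono f ≤ c * ∫ x in cube n, dirGradNorm f x := by
  obtain ⟨C, hC, h⟩ := Q288.DP.t_cube (Q288.DP.h_gauss (Q288.DP.t_mp Q288.DP.t_gm)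
    Q288.DP.t_dual (Q288.DP.t_one Q288.DP.h_l1 Q288.DP.t_fix) (Q288.DP.t_v5 Q288.DP.t_gm))
  refine ⟨C, hC, fun n _ f hf => ?_⟩
  obtain ⟨K, hK⟩ := hf
  obtain ⟨g, hg1, hg2, _, hg4⟩ := h n f K hK
  refine le_trans (csInf_le ⟨0, ?_⟩ ⟨g, hg1, hg2, rfl⟩) hg4
  rintro r ⟨g', _, _, rfl⟩
  exact integral_nonneg (fun x => abs_nonneg _)

end Pool.Agent.Results.MP_04ae38_an.DirectedPoincare
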